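import Mathlib

/-!
# Maclaurin's inequality for elementary symmetric sums, with its equality case

`esum s x k = ∑_{I ⊆ s, |I| = k} ∏_{i ∈ I} x i`.
-/

namespace Pool.Agent.Q157.Maclaurin

open Finset

set_option linter.unusedSectionVars false

variable {ι : Type*} [DecidableEq ι]

/-- The `k`-th elementary symmetric sum of `x` over the finite set `s`. -/
noncomputable def esum (s : Finset ι) (x : ι → ℝ) (k : ℕ) : ℝ :=
  ∑ I ∈ s.powersetCard k, ∏ i ∈ I, x i

lemma esum_zero (s : Finset ι) (x : ι → ℝ) : esum s x 0 = 1 := by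
  simp [esum]

lemma esum_nonneg (s : Finset ι) (x : ι → ℝ) (hx : ∀ i ∈ s, 0 ≤ x i) (k : ℕ) :
    0 ≤ esum s x k := by
  refine Finset.sum_nonneg fun I hI => Finset.prod_nonneg fun i hi => hx i ?_
  exact (Finset.mem_powersetCard.mp hI).1 hi

lemma esum_insert (s : Finset ι) (a : ι) (ha : a ∉ s) (x : ι → ℝ) (k : ℕ) :
    esum (insert a s) x (k + 1) = esum s x (k + 1) + x a * esum s x k := by
  classical
  unfold esum
  rw [Finset.powersetCard_succ_insert ha, Finset.sum_union]
  · congr 1
    rw [Finset.sum_image, Finset.mul_sum]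
    · refine Finset.sum_congr rfl fun I hI => ?_
      have : a ∉ I := fun h => ha ((Finset.mem_powersetCard.mp hI).1 h)
      rw [Finset.prod_insert this]
    · intro I hI J hJ hIJ
      have h1 : a ∉ I := fun h => ha ((Finset.mem_powersetCard.mp hI).1 h)
      have h2 : a ∉ J := fun h => ha ((Finset.mem_powersetCard.mp hJ).1 h)
      rw [← Finset.erase_insert h1, ← Finset.erase_insert h2]
      exact congrArg (fun t => Finset.erase t a) hIJ
  · rw [Finset.disjoint_left]
    intro I hI hI'
    obtain ⟨J, _, rfl⟩ := Finset.mem_image.mp hI'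
    exact ha ((Finset.mem_powersetCard.mp hI).1 (Finset.mem_insert_self a J))

/-- The one-variable inequality behind the induction. -/
lemma step_ineq (n k : ℕ) (t a : ℝ) (ht : 0 ≤ t) (ha : 0 ≤ a) :
    (n.choose (k + 1) : ℝ) * t ^ (k + 1) + a * ((n.choose k : ℝ) * t ^ k)
      ≤ ((n + 1).choose (k + 1) : ℝ) * ((n * t + a) / (n + 1)) ^ (k + 1) := by
  rcases ht.eq_or_lt with rfl | ht
  · rcases Nat.eq_zero_or_pos k with rfl | hk
    · simp
      have : (n + 1 : ℝ) ≠ 0 := by positivity
      field_simp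
      exact le_refl _
    · have h1 : (0 : ℝ) ^ k = 0 := zero_pow hk.ne'
      rw [h1]
      simp
      positivity
  · -- Bernoulli
    set m : ℝ := (n * t + a) / (n + 1) with hm
    have hn : (0 : ℝ) < n + 1 := by positivity
    have hm0 : 0 ≤ m := by positivity
    have hB := one_add_mul_le_pow (show (-2 : ℝ) ≤ m / t - 1 by
      have : 0 ≤ m / t := by positivity
      linarith) (k + 1)
    have hB' : t ^ (k + 1) * (1 + ((k + 1 : ℕ) : ℝ) * (m / t - 1)) ≤ m ^ (k + 1) := by
      calc t ^ (k + 1) * (1 + ((k + 1 : ℕ) : ℝ) * (m / t - 1))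
          ≤ t ^ (k + 1) * (1 + (m / t - 1)) ^ (k + 1) :=
            mul_le_mul_of_nonneg_left hB (by positivity)
        _ = m ^ (k + 1) := by
            rw [← mul_pow]
            congr 1
            field_simp
            ring
    have hc1 : ((n + 1).choose (k + 1) : ℝ) = (n.choose k : ℝ) + (n.choose (k + 1) : ℝ) := by
      rw [Nat.choose_succ_succ]; push_cast; ring
    have hc2 : ((n + 1).choose (k + 1) : ℝ) * (k + 1) = (n + 1) * (n.choose k : ℝ) := by
      have := Nat.add_one_mul_choose_eq n k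
      have h2 : ((n + 1 : ℕ) : ℝ) * (n.choose k : ℝ) = ((n + 1).choose (k + 1) : ℝ) * ((k + 1 : ℕ) : ℝ) := by
        exact_mod_cast this
      push_cast at h2
      linarith
    have key : (n.choose (k + 1) : ℝ) * t ^ (k + 1) + a * ((n.choose k : ℝ) * t ^ k)
        = ((n + 1).choose (k + 1) : ℝ) * (t ^ (k + 1) * (1 + ((k + 1 : ℕ) : ℝ) * (m / t - 1))) := by
      have hma : a = (n + 1) * m - n * t := by rw [hm]; field_simp; ring
      have e1 : t ^ (k + 1) * (1 + ((k + 1 : ℕ) : ℝ) * (m / t - 1))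
          = t ^ k * (t + (k + 1) * (m - t)) := by
        push_cast
        rw [pow_succ]
        field_simp
      rw [e1, hma, pow_succ]
      have h3 : ((n + 1).choose (k + 1) : ℝ) * (t ^ k * (t + (k + 1) * (m - t)))
          = t ^ k * (((n + 1).choose (k + 1) : ℝ) * t + (((n + 1).choose (k + 1) : ℝ) * (k + 1)) * (m - t)) := by
        ring
      rw [h3, hc2, hc1]
      ring
    rw [key]
    exact mul_le_mul_of_nonneg_left hB' (by positivity)

/-- The strict form of `step_ineq`. -/
lemma step_eq (n k : ℕ) (hk : 1 ≤ k) (hkn : k ≤ n) (t a : ℝ) (ht : 0 < t) (ha : 0 ≤ a)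
    (h : ((n + 1).choose (k + 1) : ℝ) * ((n * t + a) / (n + 1)) ^ (k + 1)
      ≤ (n.choose (k + 1) : ℝ) * t ^ (k + 1) + a * ((n.choose k : ℝ) * t ^ k)) :
    a = t := by
  by_contra hat
  set m : ℝ := (n * t + a) / (n + 1) with hm
  have hn : (0 : ℝ) < n + 1 := by positivity
  have hm0 : 0 ≤ m := by positivity
  have hmt : m / t - 1 ≠ 0 := by
    intro h0
    apply hat
    have h1 : m = t := by
      have : m / t = 1 := by linarith
      rw [div_eq_one_iff_eq ht.ne'] at this
      exact this
    rw [hm, div_eq_iff hn.ne'] at h1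
    linarith
  have hB := one_add_mul_self_lt_rpow_one_add (s := m / t - 1) (by
      have : 0 ≤ m / t := by positivity
      linarith) hmt (p := ((k + 1 : ℕ) : ℝ)) (by
        push_cast
        have : (1 : ℝ) ≤ k := by exact_mod_cast hk
        linarith)
  rw [Real.rpow_natCast] at hB
  have hB' : t ^ (k + 1) * (1 + ((k + 1 : ℕ) : ℝ) * (m / t - 1)) < m ^ (k + 1) := by
    calc t ^ (k + 1) * (1 + ((k + 1 : ℕ) : ℝ) * (m / t - 1))
        < t ^ (k + 1) * (1 + (m / t - 1)) ^ (k + 1) :=
          mul_lt_mul_of_pos_left hB (by positivity)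
      _ = m ^ (k + 1) := by
          rw [← mul_pow]
          congr 1
          field_simp
          ring
  have hc1 : ((n + 1).choose (k + 1) : ℝ) = (n.choose k : ℝ) + (n.choose (k + 1) : ℝ) := by
    rw [Nat.choose_succ_succ]; push_cast; ring
  have hc2 : ((n + 1).choose (k + 1) : ℝ) * (k + 1) = (n + 1) * (n.choose k : ℝ) := by
    have := Nat.add_one_mul_choose_eq n k
    have h2 : ((n + 1 : ℕ) : ℝ) * (n.choose k : ℝ) = ((n + 1).choose (k + 1) : ℝ) * ((k + 1 : ℕ) : ℝ) := by
      exact_mod_cast this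
    push_cast at h2
    linarith
  have key : (n.choose (k + 1) : ℝ) * t ^ (k + 1) + a * ((n.choose k : ℝ) * t ^ k)
      = ((n + 1).choose (k + 1) : ℝ) * (t ^ (k + 1) * (1 + ((k + 1 : ℕ) : ℝ) * (m / t - 1))) := by
    have hma : a = (n + 1) * m - n * t := by rw [hm]; field_simp; ring
    have e1 : t ^ (k + 1) * (1 + ((k + 1 : ℕ) : ℝ) * (m / t - 1))
        = t ^ k * (t + (k + 1) * (m - t)) := by
      push_cast
      rw [pow_succ]
      field_simp
    rw [e1, hma, pow_succ]
    have h3 : ((n + 1).choose (k + 1) : ℝ) * (t ^ k * (t + (k + 1) * (m - t)))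
        = t ^ k * (((n + 1).choose (k + 1) : ℝ) * t + (((n + 1).choose (k + 1) : ℝ) * (k + 1)) * (m - t)) := by
      ring
    rw [h3, hc2, hc1]
    ring
  rw [key] at h
  have hpos : (0 : ℝ) < ((n + 1).choose (k + 1) : ℝ) := by
    exact_mod_cast Nat.choose_pos (by omega)
  have := mul_lt_mul_of_pos_left hB' hpos
  linarith

/-- **Maclaurin's inequality** `e_k ≤ C(n,k) (s/n)^k`. -/
theorem esum_le (s : Finset ι) (x : ι → ℝ) (hx : ∀ i ∈ s, 0 ≤ x i) (k : ℕ) :
    esum s x k ≤ (s.card.choose k : ℝ) * ((∑ i ∈ s, x i) / s.card) ^ k := by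
  induction s using Finset.induction_on generalizing k with
  | empty =>
    rcases k with _ | k
    · simp [esum]
    · have h0 : (∅ : Finset ι).powersetCard (k + 1) = ∅ := by
        rw [Finset.powersetCard_eq_empty]; simp
      unfold esum
      rw [h0]
      simp
  | insert a s ha ih =>
    rcases k with _ | k
    · simp [esum]
    rw [esum_insert s a ha, Finset.card_insert_of_notMem ha, Finset.sum_insert ha]
    have hx' : ∀ i ∈ s, 0 ≤ x i := fun i hi => hx i (Finset.mem_insert_of_mem hi)
    have hxa : 0 ≤ x a := hx a (Finset.mem_insert_self a s)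
    set n := s.card with hn
    set S := ∑ i ∈ s, x i with hS
    have hS0 : 0 ≤ S := Finset.sum_nonneg hx'
    have h1 := ih hx' (k + 1)
    have h2 := mul_le_mul_of_nonneg_left (ih hx' k) hxa
    have h3 := step_ineq n k (S / n) (x a) (by positivity) hxa
    have h4 : (n : ℝ) * (S / n) = S := by
      rcases Nat.eq_zero_or_pos n with h0 | hpos
      · have : s = ∅ := Finset.card_eq_zero.mp (hn ▸ h0)
        simp [hS, this, h0]
      · have : (n : ℝ) ≠ 0 := by positivity
        field_simp
    rw [h4] at h3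
    have h5 : ((n + 1 : ℕ) : ℝ) = (n : ℝ) + 1 := by push_cast; ring
    rw [h5, add_comm (x a) S]
    linarith

/-- Equality case of Maclaurin's inequality for `k ≥ 2`, positive sum. -/
theorem eq_of_esum_ge (s : Finset ι) (x : ι → ℝ) (hx : ∀ i ∈ s, 0 ≤ x i) (k : ℕ) (hk : 2 ≤ k)
    (hks : k ≤ s.card) (hpos : 0 < ∑ i ∈ s, x i)
    (h : (s.card.choose k : ℝ) * ((∑ i ∈ s, x i) / s.card) ^ k ≤ esum s x k) :
    ∀ i ∈ s, x i = (∑ i ∈ s, x i) / s.card := by
  intro a ha
  obtain ⟨k, rfl⟩ : ∃ l, k = l + 1 := ⟨k - 1, by omega⟩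
  set s' := s.erase a with hs'
  have has' : a ∉ s' := Finset.notMem_erase a s
  have hins : insert a s' = s := Finset.insert_erase ha
  have hcard : s.card = s'.card + 1 := by rw [← hins, Finset.card_insert_of_notMem has']
  set n := s'.card with hn
  set S := ∑ i ∈ s', x i with hS
  have hsum : ∑ i ∈ s, x i = S + x a := by
    rw [← hins, Finset.sum_insert has']; ring
  have hx' : ∀ i ∈ s', 0 ≤ x i := fun i hi => hx i (Finset.mem_of_mem_erase hi)
  have hxa : 0 ≤ x a := hx a ha
  have hS0 : 0 ≤ S := Finset.sum_nonneg hx'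
  have hn1 : 1 ≤ n := by omega
  have hn0 : (n : ℝ) ≠ 0 := by positivity
  have h4 : (n : ℝ) * (S / n) = S := by field_simp
  rw [← hins, esum_insert s' a has', hins, hcard, hsum] at h
  have h1 := esum_le s' x hx' (k + 1)
  have h2 := mul_le_mul_of_nonneg_left (esum_le s' x hx' k) hxa
  rw [← hn, ← hS] at h1 h2
  push_cast at h
  rw [hsum, hcard]
  push_cast
  rcases hS0.eq_or_lt with hS0' | hSpos
  · exfalso
    rw [← hS0'] at h1 h2 h
    have hk0 : k ≠ 0 := by omega
    simp [hk0] at h1 h2
    have hxpos : 0 < x a := by rw [hsum, ← hS0'] at hpos; simpa using hpos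
    have h6 : 0 < ((n + 1).choose (k + 1) : ℝ) * ((0 + x a) / ((n : ℝ) + 1)) ^ (k + 1) := by
      have : (0 : ℝ) < ((n + 1).choose (k + 1) : ℝ) := by
        exact_mod_cast Nat.choose_pos (by omega)
      positivity
    linarith
  · have ht : 0 < S / n := by positivity
    have h7 : x a = S / n := by
      apply step_eq n k (by omega) (by omega) (S / n) (x a) ht hxa
      rw [h4]
      linarith
    rw [h7]
    field_simp

end Pool.Agent.Q157.Maclaurin
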