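import Mathlib

/-!
# Monotonic symmetrizations which fix spherical cylinders are projection invariant
-/

set_option autoImplicit false

open Metric
open scoped Pointwise

namespace Pool.Agent.Q157.Sym

abbrev E (n : ℕ) := EuclideanSpace ℝ (Fin n)

variable {n : ℕ}

/-- nonempty compact convex sets -/
def Kn (n : ℕ) : Set (Set (E n)) := {K | IsCompact K ∧ Convex ℝ K ∧ K.Nonempty}

/-- convex bodies: compact convex sets with nonempty interior -/
def Knn (n : ℕ) : Set (Set (E n)) := {K | IsCompact K ∧ Convex ℝ K ∧ (interior K).Nonempty}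

/-- spherical cylinder `D_r(x) + s (B ∩ H^⊥)` -/
def cyl (H : Submodule ℝ (E n)) (x : E n) (r s : ℝ) : Set (E n) :=
  (closedBall x r ∩ (H : Set (E n))) + s • (closedBall (0 : E n) 1 ∩ (Hᗮ : Set (E n)))

/-- orthogonal projection of a set -/
noncomputable def proj (H : Submodule ℝ (E n)) (K : Set (E n)) : Set (E n) :=
  (fun x => H.starProjection x) '' K

theorem mem_cyl {H : Submodule ℝ (E n)} {x : E n} {r s : ℝ} (hs : 0 < s) {p : E n} :
    p ∈ cyl H x r s ↔ ‖H.starProjection p - x‖ ≤ r ∧ ‖p - H.starProjection p‖ ≤ s := by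
  constructor
  · rintro ⟨a, ⟨ha, haH⟩, b, ⟨c, ⟨hc, hcH⟩, rfl⟩, rfl⟩
    have h1 : H.starProjection (a + s • c) = a := by
      rw [map_add, map_smul]
      rw [Submodule.starProjection_eq_self_iff.2 haH,
        (Submodule.starProjection_apply_eq_zero_iff H).2 hcH]
      simp
    simp only [] at *
    rw [h1]
    refine ⟨by simpa [dist_eq_norm] using ha, ?_⟩
    rw [add_sub_cancel_left, norm_smul, Real.norm_eq_abs, abs_of_pos hs]
    have : ‖c‖ ≤ 1 := by simpa using hc
    nlinarith
  · rintro ⟨h1, h2⟩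
    refine ⟨H.starProjection p, ⟨by simpa [dist_eq_norm] using h1,
      Submodule.starProjection_apply_mem _ _⟩, p - H.starProjection p,
      ⟨s⁻¹ • (p - H.starProjection p), ⟨?_, ?_⟩, ?_⟩, by simp⟩
    · rw [mem_closedBall_zero_iff, norm_smul, norm_inv, Real.norm_eq_abs, abs_of_pos hs]
      rw [inv_mul_le_iff₀ hs]; linarith
    · exact Submodule.smul_mem _ _ (Submodule.sub_starProjection_mem_orthogonal p)
    · simp [smul_smul, mul_inv_cancel₀ hs.ne']

theorem cyl_mem {H : Submodule ℝ (E n)} {x : E n} (hx : x ∈ H) {r s : ℝ} (hr : 0 < r) (hs : 0 < s) :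
    cyl H x r s ∈ Kn n ∧ cyl H x r s ∈ Knn n := by
  have hc : IsCompact (cyl H x r s) := by
    refine IsCompact.add ?_ (IsCompact.smul _ ?_)
    · exact (isCompact_closedBall _ _).inter_right (Submodule.closed_of_finiteDimensional H)
    · exact (isCompact_closedBall _ _).inter_right (Submodule.closed_of_finiteDimensional Hᗮ)
  have hv : Convex ℝ (cyl H x r s) := by
    refine Convex.add ?_ (Convex.smul ?_ _)
    · exact (convex_closedBall _ _).inter H.convex
    · exact (convex_closedBall _ _).inter Hᗮ.convex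
  have hi : (interior (cyl H x r s)).Nonempty := by
    refine ⟨x, mem_interior.2 ⟨ball x (min r s), ?_, isOpen_ball, mem_ball_self (lt_min hr hs)⟩⟩
    intro p hp
    rw [mem_cyl hs]
    have hp' : ‖p - x‖ < min r s := by simpa [dist_eq_norm] using hp
    have hPx : H.starProjection x = x := Submodule.starProjection_eq_self_iff.2 hx
    constructor
    · have : H.starProjection p - x = H.starProjection (p - x) := by rw [map_sub, hPx]
      rw [this]
      exact (Submodule.norm_starProjection_apply_le H (p - x)).trans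
        (hp'.le.trans (min_le_left _ _))
    · have : p - H.starProjection p = (p - x) - H.starProjection (p - x) := by
        rw [map_sub, hPx]; abel
      rw [this]
      have h3 : (p - x) - H.starProjection (p - x) = Hᗮ.starProjection (p - x) := by
        rw [Submodule.starProjection_orthogonal']; rfl
      rw [h3]
      exact (Submodule.norm_starProjection_apply_le Hᗮ (p - x)).trans
        (hp'.le.trans (min_le_right _ _))
  exact ⟨⟨hc, hv, hi.mono interior_subset⟩, ⟨hc, hv, hi⟩⟩

/-- A point of `H` outside of the projection of `K` can be separated from `K` by a cylinder. -/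
theorem exists_cyl {H : Submodule ℝ (E n)} {K : Set (E n)} (hK : IsCompact K) (hKc : Convex ℝ K)
    (hKn : K.Nonempty) {z : E n} (hz : z ∈ H) (hzK : z ∉ proj H K) :
    ∃ x ∈ H, ∃ r s : ℝ, 0 < r ∧ 0 < s ∧ K ⊆ cyl H x r s ∧ r < ‖z - x‖ := by
  have hM : IsCompact (proj H K) := hK.image H.starProjection.continuous
  have hMc : Convex ℝ (proj H K) := hKc.linear_image H.starProjection.toLinearMap
  have hMn : (proj H K).Nonempty := hKn.image _
  obtain ⟨m, hm, hmin⟩ := exists_norm_eq_iInf_of_complete_convex hMn hM.isClosed.isComplete hMc z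
  rw [norm_eq_iInf_iff_real_inner_le_zero hMc hm] at hmin
  set v := z - m with hv
  have hv0 : v ≠ 0 := by
    intro h
    apply hzK
    have : z = m := by rwa [hv, sub_eq_zero] at h
    rwa [this]
  have hvp : 0 < ‖v‖ := norm_pos_iff.2 hv0
  obtain ⟨D, hD⟩ := hM.isBounded.subset_closedBall m
  have hD0 : 0 ≤ D := by
    have := hD hm
    rw [mem_closedBall, dist_self] at this
    exact this
  obtain ⟨s, hs⟩ := hK.isBounded.exists_norm_le
  have hmH : m ∈ H := by
    obtain ⟨k, _, rfl⟩ := hm
    exact Submodule.starProjection_apply_mem _ _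
  -- choose R
  obtain ⟨R, hR⟩ : ∃ R : ℝ, 0 ≤ R ∧ D ^ 2 + R ^ 2 * ‖v‖ ^ 2 < ((1 + R) * ‖v‖) ^ 2 := by
    refine ⟨D ^ 2 / ‖v‖ ^ 2, by positivity, ?_⟩
    have h1 : D ^ 2 / ‖v‖ ^ 2 * ‖v‖ ^ 2 = D ^ 2 := by field_simp
    have h2 : 0 < ‖v‖ ^ 2 := by positivity
    nlinarith [sq_nonneg D]
  have hpos : 0 < (1 + R) * ‖v‖ := by nlinarith [hR.1]
  set r0 := Real.sqrt (D ^ 2 + R ^ 2 * ‖v‖ ^ 2) with hr0
  have hr0n : 0 ≤ r0 := Real.sqrt_nonneg _
  have hr1 : r0 < (1 + R) * ‖v‖ := by
    rw [hr0, Real.sqrt_lt' hpos]; exact hR.2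
  obtain ⟨r, hr, hr2⟩ := exists_between hr1
  refine ⟨m - R • v, H.sub_mem hmH (H.smul_mem _ (H.sub_mem hz hmH)), r, |s| + 1,
    lt_of_le_of_lt hr0n hr, by positivity, ?_, ?_⟩
  · intro p hp
    rw [mem_cyl (by positivity)]
    constructor
    · refine le_trans ?_ hr.le
      rw [hr0]
      apply Real.le_sqrt_of_sq_le
      have h1 : H.starProjection p ∈ proj H K := ⟨p, hp, rfl⟩
      have h2 := hmin _ h1
      have h3 : ‖H.starProjection p - m‖ ≤ D := by
        have := hD h1
        rwa [mem_closedBall, dist_eq_norm] at this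
      have h4 : H.starProjection p - (m - R • v) = (H.starProjection p - m) + R • v := by abel
      rw [h4, norm_add_sq_real, inner_smul_right, real_inner_comm, norm_smul, mul_pow,
        Real.norm_eq_abs, sq_abs]
      have h5 : ‖H.starProjection p - m‖ ^ 2 ≤ D ^ 2 := by
        apply pow_le_pow_left₀ (norm_nonneg _) h3
      nlinarith [hR.1, mul_nonneg hR.1 (neg_nonneg.2 h2)]
    · have h1 : p - H.starProjection p = Hᗮ.starProjection p := by
        rw [Submodule.starProjection_orthogonal']; rfl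
      rw [h1]
      refine (Submodule.norm_starProjection_apply_le Hᗮ p).trans ?_
      have := hs p hp
      have h2 := le_abs_self s
      linarith
  · have h1 : z - (m - R • v) = (1 + R) • v := by
      rw [add_smul, one_smul, hv]; abel
    rw [h1, norm_smul, Real.norm_eq_abs, abs_of_nonneg (by linarith [hR.1])]
    exact hr2

theorem inter_ball_mem {K : Set (E n)} {B : Set (Set (E n))} (hB : B = Kn n ∨ B = Knn n)
    (hK : K ∈ B) {p : E n} (hp : p ∈ K) {ε : ℝ} (hε : 0 < ε) : K ∩ closedBall p ε ∈ B := by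
  rcases hB with rfl | rfl
  · exact ⟨hK.1.inter_right isClosed_closedBall, hK.2.1.inter (convex_closedBall _ _),
      ⟨p, hp, mem_closedBall_self hε.le⟩⟩
  · refine ⟨hK.1.inter_right isClosed_closedBall, hK.2.1.inter (convex_closedBall _ _), ?_⟩
    have h1 : p ∈ closure (interior K) := by
      rw [hK.2.1.closure_interior_eq_closure_of_nonempty_interior hK.2.2]
      exact subset_closure hp
    obtain ⟨q, hq, hqp⟩ := Metric.mem_closure_iff.1 h1 ε hε
    refine ⟨q, ?_⟩
    rw [interior_inter]
    refine ⟨hq, ball_subset_interior_closedBall ?_⟩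
    rw [mem_ball, dist_comm]; exact hqp

theorem nonempty_of_mem {K : Set (E n)} {B : Set (Set (E n))} (hB : B = Kn n ∨ B = Knn n)
    (hK : K ∈ B) : IsCompact K ∧ Convex ℝ K ∧ K.Nonempty := by
  rcases hB with rfl | rfl
  · exact hK
  · exact ⟨hK.1, hK.2.1, hK.2.2.mono interior_subset⟩

/-- **Main lemma.** Monotone maps which fix all spherical cylinders preserve the projection. -/
theorem main {H : Submodule ℝ (E n)} {B : Set (Set (E n))} (hB : B = Kn n ∨ B = Knn n)
    (D : B → B) (hmono : ∀ K L : B, (K : Set (E n)) ⊆ L → (D K : Set (E n)) ⊆ D L)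
    (hcyl : ∀ x ∈ H, ∀ r s : ℝ, 0 < r → 0 < s → ∀ C : B, (C : Set (E n)) = cyl H x r s → D C = C)
    (K : B) : proj H (D K) = proj H K := by
  have hsub : ∀ K : B, proj H (D K) ⊆ proj H K := by
    intro K
    rintro _ ⟨q, hq, rfl⟩
    by_contra hcon
    obtain ⟨hc, hv, hne⟩ := nonempty_of_mem hB K.2
    obtain ⟨x, hx, r, s, hr, hs, hKC, hlt⟩ := exists_cyl hc hv hne
      (Submodule.starProjection_apply_mem H q) hcon
    have hCB : cyl H x r s ∈ B := by
      rcases hB with rfl | rfl
      · exact (cyl_mem hx hr hs).1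
      · exact (cyl_mem hx hr hs).2
    have h1 := hmono K ⟨cyl H x r s, hCB⟩ hKC
    rw [hcyl x hx r s hr hs ⟨cyl H x r s, hCB⟩ rfl] at h1
    have h2 := h1 hq
    rw [mem_cyl hs] at h2
    linarith [h2.1]
  apply Set.Subset.antisymm (hsub K)
  rintro _ ⟨p, hp, rfl⟩
  have hcl : IsClosed (proj H (D K)) :=
    ((nonempty_of_mem hB (D K).2).1.image H.starProjection.continuous).isClosed
  rw [← hcl.closure_eq]
  rw [Metric.mem_closure_iff]
  intro ε hε
  have hmem := inter_ball_mem hB K.2 hp (half_pos hε)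
  set K' : B := ⟨K ∩ closedBall p (ε / 2), hmem⟩ with hK'
  obtain ⟨q, hq⟩ := (nonempty_of_mem hB (D K').2).2.2
  have hqK : q ∈ (D K : Set (E n)) := hmono K' K Set.inter_subset_left hq
  obtain ⟨w, hw, hwq⟩ := hsub K' ⟨q, hq, rfl⟩
  refine ⟨H.starProjection q, ⟨q, hqK, rfl⟩, ?_⟩
  have hwq' : H.starProjection q = H.starProjection w := hwq.symm
  show dist (H.starProjection p) (H.starProjection q) < ε
  rw [hwq']
  have h1 : ‖p - w‖ ≤ ε / 2 := by
    have := hw.2
    rwa [mem_closedBall, dist_comm, dist_eq_norm] at this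
  rw [dist_eq_norm, ← map_sub]
  exact lt_of_le_of_lt ((Submodule.norm_starProjection_apply_le H _).trans h1) (half_lt_self hε)

end Pool.Agent.Q157.Sym
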